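import Mathlib

/-! From a commensurating action to an affine isometric action on `ℓ²`. -/

namespace Pool.Agent.N66.Aff

open Filter Topology
open scoped ENNReal

variable {Y : Type}

abbrev E (Y : Type) := lp (fun _ : Y => ℝ) 2

theorem memlp_comp (e : Y ≃ Y) {v : Y → ℝ} (hv : Memℓp v 2) : Memℓp (fun y => v (e y)) 2 := by
  have h2 : (0:ℝ) < (2 : ℝ≥0∞).toReal := by norm_num
  rw [memℓp_gen_iff h2] at hv ⊢
  exact (e.summable_iff (f := fun y => ‖v y‖ ^ (2 : ℝ≥0∞).toReal)).2 hv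

theorem memlp_finite {v : Y → ℝ} (hv : {y | v y ≠ 0}.Finite) : Memℓp v 2 := by
  have h2 : (0:ℝ) < (2 : ℝ≥0∞).toReal := by norm_num
  rw [memℓp_gen_iff h2]
  apply summable_of_finite_support
  refine hv.subset ?_
  intro y hy
  simp only [Function.mem_support] at hy
  simp only [Set.mem_setOf_eq]
  intro h0
  apply hy
  rw [h0]; simp

/-- composition with a permutation -/
noncomputable def permL (e : Y ≃ Y) : E Y ≃ₗᵢ[ℝ] E Y where
  toFun v := ⟨fun y => v (e y), memlp_comp e (lp.memℓp v)⟩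
  invFun v := ⟨fun y => v (e.symm y), memlp_comp e.symm (lp.memℓp v)⟩
  left_inv v := by ext y; simp
  right_inv v := by ext y; simp
  map_add' v w := by ext y; simp <;> rfl
  map_smul' c v := by ext y; simp
  norm_map' v := by
    have h2 : (0:ℝ) < (2 : ℝ≥0∞).toReal := by norm_num
    rw [lp.norm_eq_tsum_rpow h2, lp.norm_eq_tsum_rpow h2]
    congr 1
    exact e.tsum_eq (fun y => ‖v y‖ ^ (2 : ℝ≥0∞).toReal)

@[simp] theorem permL_apply (e : Y ≃ Y) (v : E Y) (y : Y) : permL e v y = v (e y) := rfl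

variable {Γ : Type*} [Group Γ] [MulAction Γ Y]

/-- The cocycle. -/
noncomputable def coc (ι : Y → ℝ) (h : ∀ g : Γ, {y | ι (g⁻¹ • y) ≠ ι y}.Finite) (g : Γ) : E Y :=
  ⟨fun y => ι (g⁻¹ • y) - ι y, memlp_finite (by
    refine (h g).subset ?_
    intro y hy
    simp only [Set.mem_setOf_eq] at hy ⊢
    intro h0; apply hy; rw [h0]; simp)⟩

@[simp] theorem coc_apply (ι : Y → ℝ) (h : ∀ g : Γ, {y | ι (g⁻¹ • y) ≠ ι y}.Finite) (g : Γ)
    (y : Y) : coc ι h g y = ι (g⁻¹ • y) - ι y := rfl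

/-- The affine isometric action. -/
noncomputable def act (ι : Y → ℝ) (h : ∀ g : Γ, {y | ι (g⁻¹ • y) ≠ ι y}.Finite) :
    Γ →* (E Y ≃ᵃⁱ[ℝ] E Y) where
  toFun g := (permL (MulAction.toPerm g⁻¹)).toAffineIsometryEquiv.trans
    (AffineIsometryEquiv.constVAdd ℝ (E Y) (coc ι h g))
  map_one' := by
    ext v y
    simp
  map_mul' g k := by
    ext v y
    simp [mul_smul]
    ring

theorem act_apply (ι : Y → ℝ) (h : ∀ g : Γ, {y | ι (g⁻¹ • y) ≠ ι y}.Finite) (g : Γ) (v : E Y)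
    (y : Y) : act ι h g v y = ι (g⁻¹ • y) - ι y + v (g⁻¹ • y) := by
  simp [act]

/-- An element of `ℓ²` equal to a constant on an infinite set vanishes there. -/
theorem eq_zero_of_const (v : E Y) (c : ℝ) (f : ℕ → Y) (hf : Function.Injective f)
    (hc : ∀ n, v (f n) = c) : c = 0 := by
  have h2 : (0:ℝ) < (2 : ℝ≥0∞).toReal := by norm_num
  have h1 := (memℓp_gen_iff h2).1 (lp.memℓp v)
  have h3 : Summable (fun n : ℕ => ‖v (f n)‖ ^ (2 : ℝ≥0∞).toReal) := h1.comp_injective hf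
  have h4 := h3.tendsto_atTop_zero
  simp only [hc] at h4
  have h5 := tendsto_nhds_unique h4 tendsto_const_nhds
  by_contra h0
  have : (0:ℝ) < ‖c‖ ^ (2 : ℝ≥0∞).toReal := Real.rpow_pos_of_pos (norm_pos_iff.2 h0) _
  linarith

end Pool.Agent.N66.Aff
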