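import Pool.Agent.N66.Aff

open Filter Topology OnePoint Matrix
open scoped MatrixGroups

namespace Pool.Agent.N66.RT

noncomputable def sf (t : ℝ) : ℝ :=
  if t ≤ 0 then t else if t ≤ 1 then 2 * t / (1 + t) else if t ≤ 2 then 2 / (3 - t) else t

noncomputable def sg (y : ℝ) : ℝ :=
  if y ≤ 0 then y else if y ≤ 1 then y / (2 - y) else if y ≤ 2 then 3 - 2 / y else y

noncomputable def ff (t : ℝ) : ℝ :=
  if t ≤ 0 then t else if t ≤ 1 / 2 then t / (1 - t) else if t ≤ 1 then 3 - 1 / t else t + 1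

noncomputable def fg (y : ℝ) : ℝ :=
  if y ≤ 0 then y else if y ≤ 1 then y / (1 + y) else if y ≤ 2 then 1 / (3 - y) else y - 1

theorem sf_mono : StrictMono sf := by
  have a1 : ∀ t : ℝ, 0 < t → t ≤ 1 → 0 < 2 * t / (1 + t) ∧ 2 * t / (1 + t) ≤ 1 := by
    intro t h0 h1
    constructor
    · positivity
    · rw [div_le_one (by linarith)]; linarith
  have a2 : ∀ t : ℝ, 1 < t → t ≤ 2 → 1 < 2 / (3 - t) ∧ 2 / (3 - t) ≤ 2 := by
    intro t h0 h1
    constructor
    · rw [one_lt_div (by linarith)]; linarith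
    · rw [div_le_iff₀ (by linarith)]; linarith
  intro x y h
  unfold sf
  by_cases x0 : x ≤ 0
  · rw [if_pos x0]
    by_cases y0 : y ≤ 0
    · rw [if_pos y0]; exact h
    rw [if_neg y0]; push Not at y0
    by_cases y1 : y ≤ 1
    · rw [if_pos y1]; linarith [(a1 y y0 y1).1]
    rw [if_neg y1]; push Not at y1
    by_cases y2 : y ≤ 2
    · rw [if_pos y2]; linarith [(a2 y y1 y2).1]
    rw [if_neg y2]; exact h
  rw [if_neg x0, if_neg (show ¬ y ≤ 0 by push Not at x0 ⊢; linarith)]
  push Not at x0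
  by_cases x1 : x ≤ 1
  · rw [if_pos x1]
    by_cases y1 : y ≤ 1
    · rw [if_pos y1, div_lt_div_iff₀ (by linarith) (by linarith)]; nlinarith
    rw [if_neg y1]; push Not at y1
    by_cases y2 : y ≤ 2
    · rw [if_pos y2]; linarith [(a2 y y1 y2).1, (a1 x x0 x1).2]
    rw [if_neg y2]; push Not at y2; linarith [(a1 x x0 x1).2]
  rw [if_neg x1, if_neg (show ¬ y ≤ 1 by push Not at x1 ⊢; linarith)]
  push Not at x1
  by_cases x2 : x ≤ 2
  · rw [if_pos x2]
    by_cases y2 : y ≤ 2
    · rw [if_pos y2, div_lt_div_iff₀ (by linarith) (by linarith)]; linarith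
    rw [if_neg y2]; push Not at y2; linarith [(a2 x x1 x2).2]
  rw [if_neg x2, if_neg (show ¬ y ≤ 2 by push Not at x2 ⊢; linarith)]
  exact h

theorem ff_mono : StrictMono ff := by
  have a1 : ∀ t : ℝ, 0 < t → t ≤ 1 / 2 → 0 < t / (1 - t) ∧ t / (1 - t) ≤ 1 := by
    intro t h0 h1
    constructor
    · apply div_pos h0; linarith
    · rw [div_le_one (by linarith)]; linarith
  have a2 : ∀ t : ℝ, 1 / 2 < t → t ≤ 1 → 1 < 3 - 1 / t ∧ 3 - 1 / t ≤ 2 := by
    intro t h0 h1
    have h3 : 1 / t < 2 := by rw [div_lt_iff₀ (by linarith)]; linarith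
    have h4 : 1 ≤ 1 / t := by rw [le_div_iff₀ (by linarith)]; linarith
    constructor <;> linarith
  intro x y h
  unfold ff
  by_cases x0 : x ≤ 0
  · rw [if_pos x0]
    by_cases y0 : y ≤ 0
    · rw [if_pos y0]; exact h
    rw [if_neg y0]; push Not at y0
    by_cases y1 : y ≤ 1 / 2
    · rw [if_pos y1]; linarith [(a1 y y0 y1).1]
    rw [if_neg y1]; push Not at y1
    by_cases y2 : y ≤ 1
    · rw [if_pos y2]; linarith [(a2 y y1 y2).1]
    rw [if_neg y2]; linarith
  rw [if_neg x0, if_neg (show ¬ y ≤ 0 by push Not at x0 ⊢; linarith)]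
  push Not at x0
  by_cases x1 : x ≤ 1 / 2
  · rw [if_pos x1]
    by_cases y1 : y ≤ 1 / 2
    · rw [if_pos y1, div_lt_div_iff₀ (by linarith) (by linarith)]; nlinarith
    rw [if_neg y1]; push Not at y1
    by_cases y2 : y ≤ 1
    · rw [if_pos y2]; linarith [(a2 y y1 y2).1, (a1 x x0 x1).2]
    rw [if_neg y2]; push Not at y2; linarith [(a1 x x0 x1).2]
  rw [if_neg x1, if_neg (show ¬ y ≤ 1 / 2 by push Not at x1 ⊢; linarith)]
  push Not at x1
  by_cases x2 : x ≤ 1
  · rw [if_pos x2]
    by_cases y2 : y ≤ 1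
    · rw [if_pos y2]
      have : 1 / y < 1 / x := one_div_lt_one_div_of_lt (by linarith) h
      linarith
    rw [if_neg y2]; push Not at y2; linarith [(a2 x x1 x2).2]
  rw [if_neg x2, if_neg (show ¬ y ≤ 1 by push Not at x2 ⊢; linarith)]
  linarith

theorem sf_sg : Function.RightInverse sg sf := by
  intro y
  unfold sg
  by_cases y0 : y ≤ 0
  · rw [if_pos y0]; unfold sf; rw [if_pos y0]
  rw [if_neg y0]; push Not at y0
  by_cases y1 : y ≤ 1
  · rw [if_pos y1]
    have h1 : 0 < y / (2 - y) := div_pos y0 (by linarith)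
    have h2 : y / (2 - y) ≤ 1 := by rw [div_le_one (by linarith)]; linarith
    unfold sf
    rw [if_neg (by linarith), if_pos h2]
    have h3 : (2 - y) ≠ 0 := by linarith
    have h4 : 1 + y / (2 - y) ≠ 0 := by linarith
    rw [div_eq_iff h4]; field_simp; ring
  rw [if_neg y1]; push Not at y1
  by_cases y2 : y ≤ 2
  · rw [if_pos y2]
    have h1 : 2 / y < 2 := by rw [div_lt_iff₀ y0]; linarith
    have h2 : 1 ≤ 2 / y := by rw [le_div_iff₀ y0]; linarith
    unfold sf
    rw [if_neg (by linarith), if_neg (by linarith), if_pos (by linarith)]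
    have : 3 - (3 - 2 / y) = 2 / y := by ring
    rw [this]; field_simp
  rw [if_neg y2]; push Not at y2
  unfold sf
  rw [if_neg (by linarith), if_neg (by linarith), if_neg (by linarith)]

theorem ff_fg : Function.RightInverse fg ff := by
  intro y
  unfold fg
  by_cases y0 : y ≤ 0
  · rw [if_pos y0]; unfold ff; rw [if_pos y0]
  rw [if_neg y0]; push Not at y0
  by_cases y1 : y ≤ 1
  · rw [if_pos y1]
    have h1 : 0 < y / (1 + y) := div_pos y0 (by linarith)
    have h2 : y / (1 + y) ≤ 1 / 2 := by rw [div_le_div_iff₀ (by linarith) (by norm_num)]; linarith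
    unfold ff
    rw [if_neg (by linarith), if_pos h2]
    have h3 : (1 + y) ≠ 0 := by linarith
    have h4 : 1 - y / (1 + y) ≠ 0 := by linarith
    rw [div_eq_iff h4]; field_simp; ring
  rw [if_neg y1]; push Not at y1
  by_cases y2 : y ≤ 2
  · rw [if_pos y2]
    have h1 : 1 / 2 < 1 / (3 - y) := by
      apply one_div_lt_one_div_of_lt (by linarith); linarith
    have h2 : 1 / (3 - y) ≤ 1 := by rw [div_le_one (by linarith)]; linarith
    unfold ff
    rw [if_neg (by linarith), if_neg (by linarith), if_pos (by linarith)]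
    rw [one_div_one_div]; ring
  rw [if_neg y2]; push Not at y2
  unfold ff
  rw [if_neg (by linarith), if_neg (by linarith), if_neg (by linarith)]
  ring

noncomputable def sR : ℝ ≃ₜ ℝ := (sf_mono.orderIsoOfRightInverse sf sg sf_sg).toHomeomorph
noncomputable def fR : ℝ ≃ₜ ℝ := (ff_mono.orderIsoOfRightInverse ff fg ff_fg).toHomeomorph

theorem sR_apply (t : ℝ) : sR t = sf t := rfl
theorem fR_apply (t : ℝ) : fR t = ff t := rfl

end Pool.Agent.N66.RT
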