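import Pool.Agent.N66.T1

open Filter Topology OnePoint Matrix
open scoped MatrixGroups

namespace Pool.Agent.N66.RT

/-- The circle `ℝ ∪ {∞}`. -/
abbrev S1 := OnePoint ℝ

/-- Near `x` the homeomorphism `f` is given by a Moebius map with real coefficients. -/
def ProjAt (f : S1 ≃ₜ S1) (x : S1) : Prop := ∃ g : GL (Fin 2) ℝ, ∀ᶠ y in 𝓝 x, f y = g • y

/-- Near `x` the homeomorphism `f` is given by a Moebius map from `SL(2,ℤ)`. -/
def IntProjAt (f : S1 ≃ₜ S1) (x : S1) : Prop :=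
  ∃ g : SL(2, ℤ), ∀ᶠ y in 𝓝 x, f y = (SpecialLinearGroup.mapGL ℝ g) • y

/-- Thompson's group `T` (as a set of homeomorphisms of the circle). -/
def thompsonT : Set (S1 ≃ₜ S1) :=
  {f | ∃ B : Set S1, B.Finite ∧ (∀ x ∈ B, x = ∞ ∨ ∃ q : ℚ, x = ((q : ℝ) : S1)) ∧
    ∀ x, x ∉ B → IntProjAt f x}

theorem IntProjAt.proj {f : S1 ≃ₜ S1} {x : S1} (h : IntProjAt f x) : ProjAt f x := by
  obtain ⟨g, hg⟩ := h
  exact ⟨_, hg⟩

theorem projAt_one (x : S1) : ProjAt 1 x :=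
  ⟨1, Filter.Eventually.of_forall fun y => by simp⟩

theorem ProjAt.mul {f g : S1 ≃ₜ S1} {x : S1} (hg : ProjAt g x) (hf : ProjAt f (g x)) :
    ProjAt (f * g) x := by
  obtain ⟨b, hb⟩ := hg
  obtain ⟨a, ha⟩ := hf
  refine ⟨a * b, ?_⟩
  have h1 := (g.continuous.tendsto x).eventually ha
  filter_upwards [hb, h1] with y h2 h3
  rw [mul_smul, ← h2, ← h3]; rfl

theorem ProjAt.inv {f : S1 ≃ₜ S1} {x : S1} (hf : ProjAt f x) : ProjAt f⁻¹ (f x) := by
  obtain ⟨a, ha⟩ := hf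
  refine ⟨a⁻¹, ?_⟩
  have h0 : Tendsto (fun y => f⁻¹ y) (𝓝 (f x)) (𝓝 x) := by
    have := (f⁻¹ : S1 ≃ₜ S1).continuous.tendsto (f x)
    have e : (f⁻¹ : S1 ≃ₜ S1) (f x) = x := f.symm_apply_apply x
    rwa [e] at this
  filter_upwards [h0.eventually ha] with y hy
  have e : f ((f⁻¹ : S1 ≃ₜ S1) y) = y := f.apply_symm_apply y
  rw [e] at hy
  rw [eq_inv_smul_iff]
  exact hy.symm

/-- The set of break points. -/
def brk (f : S1 ≃ₜ S1) : Set S1 := {x | ¬ ProjAt f x}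

theorem brk_mul (f g : S1 ≃ₜ S1) : brk (f * g) ⊆ brk g ∪ g ⁻¹' (brk f) := by
  intro x hx
  by_contra h
  simp only [brk, Set.mem_union, Set.mem_preimage] at h
  push Not at h
  exact hx (ProjAt.mul (not_not.1 h.1) (not_not.1 h.2))

theorem brk_inv (f : S1 ≃ₜ S1) : brk f⁻¹ ⊆ f '' (brk f) := by
  intro x hx
  refine ⟨f⁻¹ x, ?_, f.apply_symm_apply x⟩
  intro h
  apply hx
  have := h.inv
  have e : f ((f⁻¹ : S1 ≃ₜ S1) x) = x := f.apply_symm_apply x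
  rwa [e] at this

/-- The elements with finitely many break points. -/
def FinBrk : Subgroup (S1 ≃ₜ S1) where
  carrier := {f | (brk f).Finite}
  one_mem' := by
    have : brk 1 = ∅ := by
      ext x; simp only [brk, Set.mem_empty_iff_false, iff_false]
      exact fun h => h (projAt_one x)
    show (brk 1).Finite
    rw [this]; exact Set.finite_empty
  mul_mem' := by
    intro f g hf hg
    exact (hg.union (hf.preimage g.injective.injOn)).subset (brk_mul f g)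
  inv_mem' := by
    intro f hf
    exact (hf.image f).subset (brk_inv f)

theorem T_finBrk {f : S1 ≃ₜ S1} (hf : f ∈ thompsonT) : f ∈ FinBrk := by
  obtain ⟨B, hB, -, h⟩ := hf
  refine hB.subset ?_
  intro x hx
  by_contra h0
  exact hx (h x h0).proj

/-- The stabiliser of `0` in the pseudogroup sense. -/
def H : Subgroup (S1 ≃ₜ S1) where
  carrier := {f | f ((0 : ℝ) : S1) = ((0 : ℝ) : S1) ∧ ProjAt f ((0 : ℝ) : S1)}
  one_mem' := ⟨rfl, projAt_one _⟩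
  mul_mem' := by
    rintro f g ⟨h1, h2⟩ ⟨h3, h4⟩
    refine ⟨?_, ProjAt.mul h4 (by rwa [h3])⟩
    show f (g _) = _
    rw [h3, h1]
  inv_mem' := by
    rintro f ⟨h1, h2⟩
    constructor
    · show f.symm _ = _
      conv_lhs => rw [← h1]
      exact f.symm_apply_apply _
    · have := h2.inv
      rwa [h1] at this

/-- The commensurated set. -/
def M : Set ((S1 ≃ₜ S1) ⧸ H) := {q | ∃ f : S1 ≃ₜ S1, q = (f : (S1 ≃ₜ S1) ⧸ H) ∧ ProjAt f ((0 : ℝ) : S1)}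

theorem mem_M (f : S1 ≃ₜ S1) : (f : (S1 ≃ₜ S1) ⧸ H) ∈ M ↔ ProjAt f ((0 : ℝ) : S1) := by
  constructor
  · rintro ⟨g, h1, h2⟩
    have h3 : f⁻¹ * g ∈ H := QuotientGroup.eq.1 h1
    have h4 : (f⁻¹ * g)⁻¹ ∈ H := H.inv_mem h3
    have e : f = g * (f⁻¹ * g)⁻¹ := by group
    rw [e]
    exact ProjAt.mul h4.2 (by rw [h4.1]; exact h2)
  · intro h
    exact ⟨f, rfl, h⟩

/-- Evaluation at `0`. -/
def ev : (S1 ≃ₜ S1) ⧸ H → S1 :=
  Quotient.lift (fun f : S1 ≃ₜ S1 => f ((0 : ℝ) : S1)) (by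
    intro f g h
    have h1 : f⁻¹ * g ∈ H := QuotientGroup.leftRel_apply.1 h
    have e : f * (f⁻¹ * g) = g := by group
    have : g ((0 : ℝ) : S1) = f ((f⁻¹ * g) ((0 : ℝ) : S1)) := by
      conv_lhs => rw [← e]
      rfl
    show f _ = g _
    rw [this, h1.1])

theorem ev_mk (f : S1 ≃ₜ S1) : ev (f : (S1 ≃ₜ S1) ⧸ H) = f ((0 : ℝ) : S1) := rfl

theorem ev_injOn : Set.InjOn ev M := by
  intro p hp q hq h
  obtain ⟨f, rfl, hf⟩ := hp
  obtain ⟨g, rfl, hg⟩ := hq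
  rw [ev_mk, ev_mk] at h
  rw [QuotientGroup.eq]
  constructor
  · show f.symm (g _) = _
    rw [← h]; exact f.symm_apply_apply _
  · refine ProjAt.mul hg ?_
    rw [← h]
    exact hf.inv

theorem bad_finite (g : S1 ≃ₜ S1) (hg : g ∈ FinBrk) :
    {q : (S1 ≃ₜ S1) ⧸ H | q ∈ M ∧ g • q ∉ M}.Finite := by
  refine Set.Finite.of_finite_image (f := ev) ?_ (ev_injOn.mono fun q hq => hq.1)
  refine Set.Finite.subset (show (brk g).Finite from hg) ?_
  rintro _ ⟨q, ⟨hq1, hq2⟩, rfl⟩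
  obtain ⟨f, rfl, hf⟩ := hq1
  intro h
  apply hq2
  have : g • (f : (S1 ≃ₜ S1) ⧸ H) = ((g * f : S1 ≃ₜ S1) : (S1 ≃ₜ S1) ⧸ H) := rfl
  rw [this, mem_M]
  exact ProjAt.mul hf h

open Classical in
noncomputable def ι (q : (S1 ≃ₜ S1) ⧸ H) : ℝ := if q ∈ M then 1 else 0

theorem comm_finite (g : S1 ≃ₜ S1) (hg : g ∈ FinBrk) :
    {q : (S1 ≃ₜ S1) ⧸ H | ι (g⁻¹ • q) ≠ ι q}.Finite := by
  have h1 := (bad_finite g hg).image (fun q => g • q)
  have h2 := bad_finite g⁻¹ (FinBrk.inv_mem hg)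
  refine (h1.union h2).subset ?_
  intro q hq
  by_cases a : q ∈ M
  · by_cases b : g⁻¹ • q ∈ M
    · exact absurd (by simp [ι, a, b]) hq
    · exact Or.inr ⟨a, b⟩
  · by_cases b : g⁻¹ • q ∈ M
    · left
      refine ⟨g⁻¹ • q, ⟨b, ?_⟩, ?_⟩
      · rwa [smul_inv_smul]
      · exact smul_inv_smul g q
    · exact absurd (by simp [ι, a, b]) hq

end Pool.Agent.N66.RT
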